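import Mathlib
import Pool.Agent.H.MP_0335f8_al.Defs
import Pool.Agent.H.MP_0335f8_cl.Space
import Pool.Agent.H.MP_0335f8_al.helper41c.Main3

/-!
# Conjugate generating involutions with product one for the classical groups of dimension >= 44

For every classical space `V` (linear, symplectic, unitary or orthogonal) of dimension at least
`44` over a finite field, the least number of pairwise conjugate involutions which generate the
simple classical group of `V` and have product one is `5`.
-/

namespace Pool.Agent.Results.MP_0335f8_al.Classical

open H47Inv H47Cl

/-- For every finite field `K` and every classical space `S` on a `K`-space of dimension at least
`44`, the least `k` for which the simple classical group of `S` is generated by `k` pairwise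
conjugate involutions with product one is `5`. -/
theorem result (K V : Type*) [Field K] [Finite K] [AddCommGroup V] [Module K V]
    [FiniteDimensional K V] (S : ClassicalSpace K V) (hd : 44 ≤ Module.finrank K V) :
    IsLeast {k : ℕ | Admissible S.SimpleGroup k} 5 :=
  H41Cl.main44 S hd

end Pool.Agent.Results.MP_0335f8_al.Classical
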