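import Mathlib
import Pool.Agent.H.MP_0335f8_al.Defs
import Pool.Agent.H.MP_0335f8_al.helper41.Chev
import Pool.Agent.H.MP_0335f8_al.helper41.Asm
import Pool.Agent.H.MP_0335f8_al.helper41.E6two
import Pool.Agent.H.MP_0335f8_al.helper41.E6odd
import Pool.Agent.H.MP_0335f8_al.helper41.E7two
import Pool.Agent.H.MP_0335f8_al.helper41.E7odd
import Pool.Agent.H.MP_0335f8_al.helper41.E8two
import Pool.Agent.H.MP_0335f8_al.helper41.E8odd
import Pool.Agent.H.MP_0335f8_al.helper41t.TOddCert
import Pool.Agent.H.MP_0335f8_al.helper41t.TTwoCert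
import Pool.Agent.H.MP_0335f8_al.helper41g.GAdm
import Pool.Agent.H.MP_0335f8_al.helper41r.RAdm
import Pool.Agent.H.MP_0335f8_al.helper41r.Groups

/-!
# Conjugate generating involutions with product one: the exceptional groups of Lie type

For every exceptional simple group of Lie type with more than one class of involutions, that is,
for `E₆(q)`, `E₇(q)`, `E₈(q)`, `F₄(q)`, `²E₆(q)`, `q` any prime power, and for `G₂(q)`, `q > 2`,
`³D₄(q)` and `²F₄(q)`, `q > 2`, `q` a power of two, the least number of pairwise conjugate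
involutions which generate the group and have product one is five.
-/

namespace Pool.Agent.Results.MP_0335f8_al.Exceptional

open H41Chev H47Inv H41R

theorem steinberg_id {n : ℕ} (A : Matrix (Fin n) (Fin n) ℤ) (K : Type*) [Field K] :
    H41G.SteinbergGroup A id (RingEquiv.refl K) = ChevalleyGroup A K := by
  unfold H41G.SteinbergGroup ChevalleyGroup
  congr 1
  ext g
  constructor
  · rintro ⟨r, m, t, hr, hm, -, hg⟩
    have h1 : m = 1 := Nat.dvd_one.1 ((hm 1).1 (Subtype.ext (hr 0)))
    subst h1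
    exact ⟨r 0, t, fun x => hg x⟩
  · rintro ⟨r, t, h⟩
    exact ⟨fun _ => r, 1, t, fun _ => rfl, fun i => by simp, rfl, fun x => h x⟩

theorem steinberg_twisted {K : Type*} [Field K] {φ : K ≃+* K} (hφ : ∀ x, φ (φ x) = x) :
    H41G.SteinbergGroup CartanE₆' ![1, 0, 3, 2, 4, 5] φ = TwistedGroup CartanE₆' φ := by
  unfold H41G.SteinbergGroup TwistedGroup
  congr 1
  ext g
  constructor
  · rintro ⟨r, m, t, hr, hm, ht, hg⟩
    have e1 : tau (r 0).1 = (r 1).1 := (hr 0).symm
    have e2 : r 2 = r 0 := by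
      apply Subtype.ext
      rw [show (r 2).1 = tau (r 1).1 from hr 1, ← e1]
      exact H41Chev.flip_flip _
    have hd : m ∣ 2 := (hm 2).1 e2
    rcases (Nat.dvd_prime Nat.prime_two).1 hd with rfl | rfl
    · left
      refine ⟨r 0, t, ?_, ht, fun x => hg x⟩
      rw [e1]; exact congrArg Subtype.val ((hm 1).2 (one_dvd _))
    · right
      refine ⟨r 0, r 1, t, e1, ?_, fun x => hg x⟩
      intro h
      have := (hm 1).1 (Subtype.ext h)
      omega
  · rintro (⟨r, t, h1, h2, h3⟩ | ⟨r, s, t, h1, h2, h3⟩)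
    · exact ⟨fun _ => r, 1, t, fun _ => h1.symm, fun i => by simp, h2, fun x => h3 x⟩
    · have h1' : tau s.1 = r.1 := by rw [← h1]; exact H41Chev.flip_flip _
      obtain ⟨q, q0, q1⟩ : ∃ q : ℕ → Root CartanE₆', (∀ i, 2 ∣ i → q i = r) ∧
          (∀ i, ¬ 2 ∣ i → q i = s) :=
        ⟨fun i => if 2 ∣ i then r else s, fun i h => if_pos h, fun i h => if_neg h⟩
      refine ⟨q, 2, t, fun i => ?_, fun i => ?_, hφ t, fun x => ?_⟩
      · by_cases hi : 2 ∣ i
        · rw [q0 i hi, q1 (i + 1) (by omega)]; exact h1.symm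
        · rw [q1 i hi, q0 (i + 1) (by omega)]; exact h1'.symm
      · rw [q0 0 (dvd_zero 2)]
        constructor
        · intro h
          by_contra hi
          rw [q1 i hi] at h
          exact h2 (congrArg Subtype.val h)
        · exact q0 i
      · show g x = rootFun CartanE₆' (q 0) t (rootFun CartanE₆' (q 1) (φ t) x)
        rw [q0 0 (dvd_zero 2), q1 1 (by omega)]; exact h3 x

/-- `n(G) = 5` for the exceptional groups of Lie type with more than one class of involutions. -/
theorem result {K : Type*} [Field K] [Finite K] {G : Type _} [Group G]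
    (h : ExceptionalGroup K G) : IsLeast {k : ℕ | Admissible G k} 5 := by
  cases h with
  | E₆ =>
    rw [steinberg_id]
    refine ⟨?_, fun k hk => ?_⟩
    · by_cases h : (2 : K) = 0
      · exact E6two.adm h
      · exact E6odd.adm h
    · exact lower (K := K) good6 (a := ![1, 0, 0, 0, 0, 0]) (b := ![0, 0, 1, 0, 0, 0])
        (by decide +kernel) (by decide +kernel) (by decide +kernel) hk
  | E₇ =>
    rw [steinberg_id]
    refine ⟨?_, fun k hk => ?_⟩
    · by_cases h : (2 : K) = 0
      · exact E7two.adm h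
      · exact E7odd.adm h
    · exact lower (K := K) good7 (a := ![1, 0, 0, 0, 0, 0, 0]) (b := ![0, 0, 1, 0, 0, 0, 0])
        (by decide +kernel) (by decide +kernel) (by decide +kernel) hk
  | E₈ =>
    rw [steinberg_id]
    refine ⟨?_, fun k hk => ?_⟩
    · by_cases h : (2 : K) = 0
      · exact E8two.adm h
      · exact E8odd.adm h
    · exact lower (K := K) good8 (a := ![1, 0, 0, 0, 0, 0, 0, 0]) (b := ![0, 0, 1, 0, 0, 0, 0, 0])
        (by decide +kernel) (by decide +kernel) (by decide +kernel) hk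
  | F₄ =>
    rw [steinberg_twisted (fun _ => rfl), show CartanE₆' = B6 from cartan_eq]
    refine ⟨?_, fun k hk => lowerT hk⟩
    by_cases h : (2 : K) = 0
    · exact Ttwo.adm (fun _ => rfl) h
    · exact Todd.adm (fun _ => rfl) h
  | twistedE₆ _ hφ _ =>
    rw [steinberg_twisted hφ, show CartanE₆' = B6 from cartan_eq]
    refine ⟨?_, fun k hk => lowerT hk⟩
    by_cases h : (2 : K) = 0
    · exact Ttwo.adm hφ h
    · exact Todd.adm hφ h
  | G₂ hK hc =>
    rw [show CartanD₄' = H41G.B4 by decide +kernel]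
    exact ⟨H41G.admG hK (fun _ => rfl) (fun _ => hc), fun k hk => H41G.lowerG hk⟩
  | twistedD₄ _ hK hφ hn =>
    rw [show CartanD₄' = H41G.B4 by decide +kernel]
    exact ⟨H41G.admG hK hφ (fun h => absurd h hn), fun k hk => H41G.lowerG hk⟩
  | twistedF₄ _ hK hc hθ =>
    rw [show CartanE₆' = B6 from cartan_eq]
    exact ⟨admR hK hθ hc, fun k hk => lowerR hK hθ hk⟩

end Pool.Agent.Results.MP_0335f8_al.Exceptional
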