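import Mathlib
import Pool.Agent.H.MP_0335f8_al.Defs
import Pool.Agent.H.MP_0335f8_al.Assemble
import Pool.Agent.H.MP_0335f8_al.Base6
import Pool.Agent.H.MP_0335f8_al.Six2
import Pool.Agent.H.MP_0335f8_al.Fourth
import Pool.Agent.H.MP_0335f8_al.Lower4
import Pool.Agent.H.MP_0335f8_al.Lower5

/-!
# Conjugate generating involutions with product one for `PSL_n(2^m)`

For a finite field `F` of characteristic two and `n ≥ 4`, with `(n, |F|) ≠ (4, 2)`, the least
number of pairwise conjugate involutions which generate `PSL_n(F)` and have product one is `6`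
when `n = 4` and `5` when `n ≥ 5`.
-/

namespace Pool.Agent.Results.MP_0335f8_al.PSLEven

open H47Inv

/-- every element of a field with a power generator `1` is `0` or `1` -/
private theorem zero_or_one {F : Type*} [Field F] {l : F}
    (hl : ∀ a : F, a ≠ 0 → ∃ k : ℕ, a = l ^ k) (h1 : l = 1) (a : F) : a = 0 ∨ a = 1 := by
  by_cases ha : a = 0
  · exact Or.inl ha
  · obtain ⟨k, hk⟩ := hl a ha
    right
    rw [hk, h1, one_pow]

private theorem card_le_two {F : Type*} [Field F] (h : ∀ a : F, a = 0 ∨ a = 1) :
    Nat.card F ≤ 2 := by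
  classical
  have : Function.Surjective (fun b : Bool => if b then (1 : F) else 0) := by
    intro a
    rcases h a with h | h
    · exact ⟨false, by simp [h]⟩
    · exact ⟨true, by simp [h]⟩
  have h2 := Nat.card_le_card_of_surjective _ this
  simpa using h2

private theorem upper_six (F : Type*) [Field F] [Finite F] [CharP F 2] :
    Admissible (Matrix.ProjectiveSpecialLinearGroup (Fin 6) F) 5 := by
  obtain ⟨l, hl0, hl⟩ := exists_gen F
  by_cases hl1 : l = 1
  · exact admissible_six_two (zero_or_one hl hl1)
  · have : Nontrivial (Fin 4 ⊕ Fin 2) := ⟨⟨Sum.inr 0, Sum.inr 1, by decide⟩⟩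
    have h1 := admissible_of_gadget hl0 (gadget6 hl hl0 hl1)
    exact admissible_reindex (Fintype.equivFinOfCardEq (by simp)) h1

private theorem upper_four (F : Type*) [Field F] [Finite F] [CharP F 2] (hF : 4 ≤ Nat.card F) :
    Admissible (Matrix.ProjectiveSpecialLinearGroup (Fin 4) F) 6 := by
  obtain ⟨l, hl0, hl⟩ := exists_gen F
  have hl1 : l ≠ 1 := by
    intro h1
    have := card_le_two (zero_or_one hl h1)
    omega
  exact admissible_six hl hl0 hl1

/-- For a finite field `F` of characteristic two and `n ≥ 4`, with `|F| ≥ 4` when `n = 4`, the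
least `k` for which `PSL_n(F)` is generated by `k` pairwise conjugate involutions with product
one is `6` if `n = 4` and `5` if `n ≥ 5`. -/
theorem result (F : Type*) [Field F] [Finite F] [CharP F 2] (n : ℕ) (hn : 4 ≤ n)
    (hF : n = 4 → 4 ≤ Nat.card F) :
    IsLeast {k : ℕ | Admissible (Matrix.ProjectiveSpecialLinearGroup (Fin n) F) k}
      (if n = 4 then 6 else 5) := by
  by_cases h4 : n = 4
  · subst h4
    rw [if_pos rfl]
    refine ⟨upper_four F (hF rfl), ?_⟩
    intro k hk
    have h5 : 5 ≤ k := lower5 F 4 (by omega) hk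
    by_contra hlt
    have : k = 5 := by omega
    subst this
    exact not_five F hk
  · rw [if_neg h4]
    refine ⟨?_, fun k hk => lower5 F n (by omega) hk⟩
    by_cases h6 : n = 6
    · subst h6
      exact upper_six F
    · exact admissible_five F n (by omega) h6

end Pool.Agent.Results.MP_0335f8_al.PSLEven
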