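import Mathlib
import Pool.Agent.H.MP_0335f8_al.Defs
import Pool.Agent.H.MP_0335f8_al.SAssemble
import Pool.Agent.H.MP_0335f8_al.SLower

/-!
# Conjugate generating involutions with product one for `Sp_2n(2^m)`

For a finite field `F` of characteristic two and `n ≥ 4`, the least number of pairwise conjugate
involutions which generate the symplectic group `Sp_2n(F)` and have product one is `5`.
-/

namespace Pool.Agent.Results.MP_0335f8_al.SpEven

open H47Inv H47Sp

/-- For a finite field `F` of characteristic two and `n ≥ 4`, the least `k` for which the
symplectic group `Sp_2n(F)` is generated by `k` pairwise conjugate involutions with product one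
is `5`. -/
theorem result (F : Type*) [Field F] [Finite F] [CharP F 2] (n : ℕ) (hn : 4 ≤ n) :
    IsLeast {k : ℕ | Admissible (Matrix.symplecticGroup (Fin n) F) k} 5 :=
  ⟨admissible_sp_five F n hn, fun _ hk => lower_sp F n (by omega) hk⟩

end Pool.Agent.Results.MP_0335f8_al.SpEven
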